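import Pool.Agent.R903.Chow

/-!
# Correspondences and filtrations on Chow groups: definitions
-/

open CategoryTheory CategoryTheory.Limits AlgebraicGeometry
open Pool.Agent.H914 Pool.Agent.H914.VarClass Pool.Agent.H914.VarClass.Obj
open Pool.Agent.R903

universe u v w

namespace Pool.Agent.T2h95.BB

/-- The linear map `T` is zero on the subspace `M`. -/
def ZeroOn {K : Type w} [Field K] {V V' : Type w} [AddCommGroup V] [Module K V] [AddCommGroup V']
    [Module K V'] (M : Submodule K V) (T : V →ₗ[K] V') : Prop :=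
  ∀ a ∈ M, T a = 0

variable {k : Type u} [Field k] {𝒱 : VarClass k} {C : ChowTheory.{u, v} 𝒱}

/-- The type of `ℚ`-subspaces of `CH(X)`. -/
abbrev Sub (C : ChowTheory.{u, v} 𝒱) (X : 𝒱.Obj) : Type v := Submodule ℚ (C.CH X)

/-- The correspondence `γ` from `X` to `Y` lies in `CH^c(X × Y)`. -/
def IsCorr (C : ChowTheory.{u, v} 𝒱) {X Y : 𝒱.Obj} (c : ℕ) (γ : C.CH (X.prod Y)) : Prop :=
  γ ∈ C.gr (X.prod Y) c

/-- The result of applying the correspondence `γ` to the cycle class `x`. -/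
noncomputable def app (C : ChowTheory.{u, v} 𝒱) {X Y : 𝒱.Obj} (γ : C.CH (X.prod Y)) (x : C.CH X) :
    C.CH Y :=
  C.act γ x

/-- The correspondence `γ` from `X` to `Y` maps the subspace `M` of `CH(X)` into the subspace `N` of
`CH(Y)`. -/
def Maps (C : ChowTheory.{u, v} 𝒱) {X Y : 𝒱.Obj} (γ : C.CH (X.prod Y)) (M : Sub C X)
    (N : Sub C Y) : Prop :=
  ∀ x ∈ M, app C γ x ∈ N

/-- `x` is in `CH^j(X)_hom`: it is a class in `CH^j(X)` with zero image in cohomology. -/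
def IsHomTriv (W : WeilTheory.{u, v, w} C) (X : 𝒱.Obj) (j : ℕ) (x : C.CH X) : Prop :=
  x ∈ C.gr X j ∧ W.cl X x = 0

/-- The correspondence `γ` from `X` to `Y` acts as zero on `H^i(X)`. -/
def IsZeroOn (W : WeilTheory.{u, v, w} C) {X Y : 𝒱.Obj} (γ : C.CH (X.prod Y)) (i : ℕ) : Prop :=
  ZeroOn (W.gr X i) (W.act γ)

/-- The correspondence `γ` from `X` to `Y` acts as zero on `H^(2 j - ν)(X)` (which is `0` if
`2 j < ν`). -/
def Kills (W : WeilTheory.{u, v, w} C) {X Y : 𝒱.Obj} (γ : C.CH (X.prod Y)) (j ν : ℕ) : Prop :=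
  ∀ i, i + ν = 2 * j → IsZeroOn W γ i

/-- A family of subspaces `F X j ν = F^ν CH^j(X)`. -/
abbrev Fil (C : ChowTheory.{u, v} 𝒱) : Type (max (u + 1) v) :=
  ∀ X : 𝒱.Obj, ℕ → ℕ → Sub C X

/-- `q ∘ i` acts as the identity on the Chow groups of `X`. -/
def IsRetraction (C : ChowTheory.{u, v} 𝒱) {X Z : 𝒱.Obj} (i : C.CH (X.prod Z))
    (q : C.CH (Z.prod X)) : Prop :=
  ∀ x, app C q (app C i x) = x

/-- `X`, shifted by `s`, is a factor of `Z`: there are correspondences `i` from `X` to `Z` of degree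
`s` and `q` from `Z` to `X` of degree `- s` such that `q ∘ i` acts as the identity on the Chow groups
of `X`. (This holds if the motive `h(X)(-s)` is a direct summand of `h(Z)`.) -/
def IsShift (C : ChowTheory.{u, v} 𝒱) (s : ℕ) (X Z : 𝒱.Obj) : Prop :=
  ∃ (c : ℕ) (i : C.CH (X.prod Z)) (q : C.CH (Z.prod X)), c + s = Z.dim ∧ IsCorr C (X.dim + s) i ∧
    IsCorr C c q ∧ IsRetraction C i q

/-- The set `𝒟` of pairs `(Z, J)` is **dominating**: for each `X` there is a pair `(Z, J)` in `𝒟` with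
`J ≥ dim X` such that the shifts of `X` by `0, 1, …, J` are factors of `Z`. -/
def IsDominating (C : ChowTheory.{u, v} 𝒱) (𝒟 : Set (𝒱.Obj × ℕ)) : Prop :=
  ∀ X : 𝒱.Obj, ∃ p ∈ 𝒟, X.dim ≤ p.2 ∧ ∀ s ≤ p.2, IsShift C s X p.1

end Pool.Agent.T2h95.BB
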