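import Pool.Agent.T2h95.BB.Defs
import Pool.Agent.R903.Coh
import Pool.Agent.R903.Tensor

/-!
# Bloch–Beilinson filtrations: basic properties
-/

open CategoryTheory CategoryTheory.Limits AlgebraicGeometry
open Pool.Agent.H914 Pool.Agent.H914.VarClass Pool.Agent.H914.VarClass.Obj
open Pool.Agent.R903

universe u v w t

namespace Pool.Agent.T2h95.BB

variable {k : Type u} [Field k] {𝒱 : VarClass k} {C : ChowTheory.{u, v} 𝒱}
variable {W : WeilTheory.{u, v, w} C} {X Y Z : 𝒱.Obj}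

/-- `CH^j(X)_hom` -/
def homTriv (W : WeilTheory.{u, v, w} C) (X : 𝒱.Obj) (j : ℕ) : Sub C X where
  carrier := {x | IsHomTriv W X j x}
  zero_mem' := ⟨Submodule.zero_mem _, map_zero _⟩
  add_mem' := fun ha hb => ⟨Submodule.add_mem _ ha.1 hb.1, by rw [map_add, ha.2, hb.2, add_zero]⟩
  smul_mem' := fun q x hx => ⟨Submodule.smul_mem _ _ hx.1, by rw [W.cl_smul, hx.2, smul_zero]⟩

/-- The kernel of the Abel–Jacobi map. -/
noncomputable def _root_.Pool.Agent.T2h95.BB.AbelJacobi.ker (A : AbelJacobi.{u, v, w, t} W)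
    (X : 𝒱.Obj) (j : ℕ) : Sub C X :=
  homTriv W X j ⊓ LinearMap.ker (A.aj X j)

lemma mem_ker {A : AbelJacobi.{u, v, w, t} W} {j : ℕ} {x : C.CH X} :
    x ∈ A.ker X j ↔ x ∈ homTriv W X j ∧ A.aj X j x = 0 :=
  Iff.rfl

lemma homTriv_le (W : WeilTheory.{u, v, w} C) (X : 𝒱.Obj) (j : ℕ) : homTriv W X j ≤ C.gr X j :=
  fun _ hx => hx.1

lemma ker_le (A : AbelJacobi.{u, v, w, t} W) (X : 𝒱.Obj) (j : ℕ) : A.ker X j ≤ homTriv W X j :=
  fun _ hx => (mem_ker.1 hx).1

/-! ### degrees in cohomology -/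

lemma push_memH (W : WeilTheory.{u, v, w} C) (f : X ⟶ Y) {i j : ℕ} {a : W.H X} (ha : a ∈ W.gr X i)
    (h : i + 2 * Y.dim = j + 2 * X.dim) : W.push f a ∈ W.gr Y j := by
  have hI := W.isInternal Y
  set b := W.push f a with hb
  have key : ∀ p, p ≠ j → proj hI p b = 0 := by
    intro p hp
    apply W.nondeg
    intro c
    refine gr_induction hI (p := fun c => W.tr Y (proj hI p b * c) = 0) ?_ ?_ c
    · intro l c hc
      by_cases hl : p + l = 2 * Y.dim
      · have h1 : W.tr Y (proj hI p b * c) = W.tr Y (b * c) := by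
          refine gr_induction hI (p := fun b => W.tr Y (proj hI p b * c) = W.tr Y (b * c)) ?_ ?_ b
          · intro m b hbm
            by_cases hm : m = p
            · subst hm; rw [proj_same hI hbm]
            · rw [proj_ne hI hbm hm, zero_mul, map_zero,
                W.tr_eq_zero (W.mul_mem hbm hc) (by omega)]
          · intro b b' h1 h2
            rw [map_add, add_mul, add_mul, map_add, map_add, h1, h2]
        rw [h1, hb, W.tr_push, W.tr_eq_zero (W.mul_mem ha (W.map_mem f hc)) (by omega)]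
      · exact W.tr_eq_zero (W.mul_mem (proj_mem hI p b) hc) hl
    · intro c c' h1 h2
      rw [mul_add, map_add, h1, h2, add_zero]
  have hsum : b = proj hI j b := by
    have h0 : ∀ b : W.H Y, (∀ p, p ≠ j → proj hI p b = 0) → b = proj hI j b := by
      intro b hb
      have h1 := congrArg (fun T : Module.End W.K (W.H Y) => T b)
        (sum_proj hI (N := max (2 * Y.dim + 1) (j + 1)) (fun i hi => W.gr_eq_bot Y i (by omega)))
      simp only [LinearMap.sum_apply, Module.End.one_apply] at h1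
      rw [Finset.sum_eq_single j (fun p _ hp => hb p hp) (fun hj => absurd
        (Finset.mem_range.2 (by omega)) hj)] at h1
      exact h1.symm
    exact h0 b key
  rw [hsum]
  exact proj_mem hI j b

lemma push_eq_zeroH (W : WeilTheory.{u, v, w} C) (f : X ⟶ Y) {i : ℕ} {a : W.H X}
    (ha : a ∈ W.gr X i) (h : i + 2 * Y.dim < 2 * X.dim) : W.push f a = 0 := by
  apply W.nondeg
  intro c
  refine gr_induction (W.isInternal Y) (p := fun c => W.tr Y (W.push f a * c) = 0) ?_ ?_ c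
  · intro l c hc
    rw [W.tr_push]
    by_cases hl : i + l = 2 * X.dim
    · rw [W.gr_eq_bot Y l (by omega), Submodule.mem_bot] at hc
      rw [hc, map_zero, mul_zero, map_zero]
    · exact W.tr_eq_zero (W.mul_mem ha (W.map_mem f hc)) hl
  · intro c c' h1 h2
    rw [mul_add, map_add, h1, h2, add_zero]

lemma act_memH (W : WeilTheory.{u, v, w} C) {γ : C.CH (X.prod Y)} {c i j : ℕ}
    (hγ : γ ∈ C.gr (X.prod Y) c) {a : W.H X} (ha : a ∈ W.gr X i) (h : i + 2 * c = j + 2 * X.dim) :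
    W.act γ a ∈ W.gr Y j := by
  rw [W.act_apply]
  exact push_memH W _ (W.mul_mem (W.cl_mem hγ) (W.map_mem _ ha)) (by rw [dim_prod]; omega)

lemma act_eq_zeroH (W : WeilTheory.{u, v, w} C) {γ : C.CH (X.prod Y)} {c i : ℕ}
    (hγ : γ ∈ C.gr (X.prod Y) c) {a : W.H X} (ha : a ∈ W.gr X i) (h : i + 2 * c < 2 * X.dim) :
    W.act γ a = 0 := by
  rw [W.act_apply]
  exact push_eq_zeroH W _ (W.mul_mem (W.cl_mem hγ) (W.map_mem _ ha)) (by rw [dim_prod]; omega)

/-! ### the first steps of the filtration -/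

lemma hom_stable {c j j' : ℕ} (h : j + c = j' + X.dim) {γ : C.CH (X.prod Y)}
    (hγ : γ ∈ C.gr (X.prod Y) c) {x : C.CH X} (hx : x ∈ homTriv W X j) :
    C.act γ x ∈ homTriv W Y j' :=
  ⟨C.act_mem hγ hx.1 h, by rw [W.cl_act, hx.2, map_zero]⟩

lemma gr_graded {c j j' : ℕ} (h : j + c = j' + X.dim) {γ : C.CH (X.prod Y)}
    (hγ : γ ∈ C.gr (X.prod Y) c) (hk : Kills W γ j 0) {x : C.CH X} (hx : x ∈ C.gr X j) :
    C.act γ x ∈ homTriv W Y j' :=
  ⟨C.act_mem hγ hx h, by rw [W.cl_act]; exact hk _ (by omega) _ (W.cl_mem hx)⟩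

variable {A : AbelJacobi.{u, v, w, t} W}

lemma ker_stable {c j j' : ℕ} (h : j + c = j' + X.dim) {γ : C.CH (X.prod Y)}
    (hγ : γ ∈ C.gr (X.prod Y) c) {x : C.CH X} (hx : x ∈ A.ker X j) : C.act γ x ∈ A.ker Y j' := by
  obtain ⟨h1, h2⟩ := mem_ker.1 hx
  obtain ⟨g, hg, -⟩ := A.functorial γ hγ h
  refine mem_ker.2 ⟨hom_stable h hγ h1, ?_⟩
  have h3 := hg x h1
  rw [h2, map_zero] at h3
  exact h3

lemma hom_graded {c j j' : ℕ} (h : j + c = j' + X.dim) {γ : C.CH (X.prod Y)}
    (hγ : γ ∈ C.gr (X.prod Y) c) (hk : Kills W γ j 1) {x : C.CH X} (hx : x ∈ homTriv W X j) :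
    C.act γ x ∈ A.ker Y j' := by
  obtain ⟨g, hg, hg0⟩ := A.functorial γ hγ h
  refine mem_ker.2 ⟨hom_stable h hγ hx, ?_⟩
  have h3 := hg x hx
  rw [hg0 hk, LinearMap.zero_apply] at h3
  exact h3

lemma kills_zero (j ν : ℕ) : Kills W (0 : C.CH (X.prod Y)) j ν := by
  intro i _ a _
  rw [W.act_zero, LinearMap.zero_apply]

lemma kills_comp {δ : C.CH (X.prod Y)} {γ : C.CH (Y.prod Z)} {q j ν : ℕ}
    (hγ : γ ∈ C.gr (Y.prod Z) q) (hk : Kills W δ j ν) : Kills W (C.comp δ γ) j ν := by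
  intro i hi a ha
  rw [W.act_comp _ hγ, hk i hi a ha, map_zero]

/-! ### codimension zero -/

lemma homTriv_zero (hP : C.Polarized) (X : 𝒱.Obj) : homTriv W X 0 = ⊥ := by
  rw [eq_bot_iff]
  rintro x ⟨hx, h0⟩
  rw [Submodule.mem_bot]
  obtain ⟨z, hz, rfl⟩ := C.mem_gr.1 hx
  obtain ⟨D, -, hD⟩ := hP X
  have h1 : (1 : W.H X) ≠ 0 := by
    intro h1
    apply hD
    have h2 := W.tr_cl (D ^ X.dim)
    rw [← one_mul (W.cl X (D ^ X.dim)), h1, zero_mul, map_zero] at h2
    exact_mod_cast h2.symm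
  have hz' : z = X.V.coeff z (genericPoint X.V.X) • X.V.fundCycle := by
    refine Finsupp.ext (M := ℚ) (α := X.V.X) fun y => ?_
    have e1 : DFunLike.coe (F := X.V.X →₀ ℚ)
        (X.V.coeff z (genericPoint X.V.X) • X.V.fundCycle) y =
        X.V.coeff z (genericPoint X.V.X) *
          DFunLike.coe (F := X.V.X →₀ ℚ) X.V.fundCycle y :=
      Finsupp.smul_apply (M := ℚ) (α := X.V.X) _ _ _
    rw [e1]
    by_cases hy : y = genericPoint X.V.X
    · subst hy
      have : DFunLike.coe (F := X.V.X →₀ ℚ) X.V.fundCycle (genericPoint X.V.X) = 1 :=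
        Finsupp.single_eq_same (M := ℚ) (α := X.V.X)
      rw [this, mul_one]
      rfl
    · have : DFunLike.coe (F := X.V.X →₀ ℚ) X.V.fundCycle y = 0 :=
        Finsupp.single_eq_of_ne (M := ℚ) (α := X.V.X) hy
      rw [this, mul_zero]
      by_contra hne
      have h3 := hz y hne
      rw [Nat.cast_zero, Order.coheight_eq_zero] at h3
      have h4 : genericPoint X.V.X ⤳ y := genericPoint_specializes y
      have h5 : y ≤ genericPoint X.V.X := h4
      have h6 : genericPoint X.V.X ≤ y := h3 h5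
      exact hy (Specializes.antisymm h6 h5).eq
  set q := X.V.coeff z (genericPoint X.V.X) with hq
  have h2 : C.cls X z = q • (1 : C.CH X) := by
    rw [hz', map_smul, C.cls_fund]
  rw [h2] at h0 ⊢
  rw [W.cl_smul, map_one] at h0
  rcases smul_eq_zero.1 h0 with h | h
  · have : q = 0 := by exact_mod_cast h
    rw [this, zero_smul]
  · exact absurd h h1

end Pool.Agent.T2h95.BB
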