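import Pool.Agent.T2h95.BB.Base

/-!
# Bloch–Beilinson filtrations: definitions
-/

open CategoryTheory CategoryTheory.Limits AlgebraicGeometry
open Pool.Agent.H914 Pool.Agent.H914.VarClass Pool.Agent.H914.VarClass.Obj
open Pool.Agent.R903

universe u v w t

namespace Pool.Agent.T2h95.BB

/-- There is a linear map `g` from `J` to `J'` with `b (f x) = g (a x)` for all `x` with the
property `P`; and one can take `g = 0` if `Q` holds. -/
def IsInduced {B B' : Type v} {J J' : Type t} [AddCommGroup J] [Module ℚ J] [AddCommGroup J']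
    [Module ℚ J'] (P : B → Prop) (f : B → B') (a : B → J) (b : B' → J') (Q : Prop) : Prop :=
  ∃ g : J →ₗ[ℚ] J', (∀ x, P x → b (f x) = g (a x)) ∧ (Q → g = 0)

variable {k : Type u} [Field k] {𝒱 : VarClass k} {C : ChowTheory.{u, v} 𝒱}

/-- The data of Abel–Jacobi maps: `ℚ`-vector spaces `J X j` (the intermediate Jacobians
`J^(2 j - 1)(X)`, tensored with `ℚ`) and linear maps `aj : CH^j(X)_hom → J X j`, defined for
convenience on all of `CH(X)`: only the values on `CH^j(X)_hom` will be used. -/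
structure AJData (C : ChowTheory.{u, v} 𝒱) where
  /-- the intermediate Jacobian, tensored with `ℚ` -/
  J : 𝒱.Obj → ℕ → Type t
  [grp : ∀ X j, AddCommGroup (J X j)]
  [mod : ∀ X j, Module ℚ (J X j)]
  /-- the Abel–Jacobi map -/
  aj : ∀ X j, C.CH X →ₗ[ℚ] J X j

attribute [instance] AJData.grp AJData.mod

/-- There is a linear map `g` from `J X j` to `J Y j'` with `aj (γ_* x) = g (aj x)` for all `x` in
`CH^j(X)_hom`; and one can take `g = 0` if `γ` acts as zero on `H^(2 j - 1)(X)`. -/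
def AJData.IsCompatible (D : AJData.{u, v, t} C) (W : WeilTheory.{u, v, w} C) {X Y : 𝒱.Obj}
    (γ : C.CH (X.prod Y)) (j j' : ℕ) : Prop :=
  IsInduced (IsHomTriv W X j) (app C γ) (D.aj X j) (D.aj Y j') (Kills W γ j 1)

/-- Abel–Jacobi maps: every correspondence `γ` in `CH^c(X × Y)` induces linear maps between the
intermediate Jacobians, which are compatible with the Abel–Jacobi maps, and zero if `γ` acts as zero
on `H^(2 j - 1)(X)`. -/
structure AbelJacobi (W : WeilTheory.{u, v, w} C) extends AJData.{u, v, t} C where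
  functorial : ∀ {X Y : 𝒱.Obj} {c j j' : ℕ} (γ : C.CH (X.prod Y)), IsCorr C c γ →
    j + c = j' + X.dim → toAJData.IsCompatible W γ j j'

variable {W : WeilTheory.{u, v, w} C}

/-- `x` is in the kernel of the Abel–Jacobi map on `CH^j(X)_hom`. -/
def AbelJacobi.IsKer (A : AbelJacobi.{u, v, w, t} W) (X : 𝒱.Obj) (j : ℕ) (x : C.CH X) : Prop :=
  IsHomTriv W X j x ∧ A.aj X j x = 0

/-- The family `F^ν CH^j(X)` is decreasing in `ν` with `F^0 = CH^j(X)`, `F^1 = CH^j(X)_hom`,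
`F^2 = ker(AJ)` and `F^(j + 1) = 0`. -/
structure IsFil (A : AbelJacobi.{u, v, w, t} W) (X : 𝒱.Obj) (F : ℕ → ℕ → Sub C X) : Prop where
  anti : ∀ j ν, F j (ν + 1) ≤ F j ν
  zero : ∀ j, F j 0 = C.gr X j
  one : ∀ j x, x ∈ F j 1 ↔ IsHomTriv W X j x
  two : ∀ j x, x ∈ F j 2 ↔ A.IsKer X j x
  last : ∀ j, F j (j + 1) = ⊥

/-- `F` is a **Bloch–Beilinson filtration** on the Chow groups of the varieties in the set `S`, with
respect to all correspondences between varieties in `S`. -/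
structure IsBB (A : AbelJacobi.{u, v, w, t} W) (S : Set 𝒱.Obj) (F : Fil C) : Prop where
  isFil : ∀ X ∈ S, IsFil A X (F X)
  stable : ∀ X ∈ S, ∀ Y ∈ S, ∀ c j j' ν, j + c = j' + X.dim → ∀ γ : C.CH (X.prod Y), IsCorr C c γ →
    Maps C γ (F X j ν) (F Y j' ν)
  graded : ∀ X ∈ S, ∀ Y ∈ S, ∀ c j j' ν, j + c = j' + X.dim → ∀ γ : C.CH (X.prod Y), IsCorr C c γ →
    Kills W γ j ν → Maps C γ (F X j ν) (F Y j' (ν + 1))

/-- `F ν`, `ν ≥ 2`, is a **weak filtration** on the single group `CH^J(Z)` for the set `T` of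
self-correspondences of `Z`: `F 2` contains the kernel of the Abel–Jacobi map; each `γ` in `T` of
degree zero which acts as zero on `H^(2 J - ν)(Z)` maps `F ν` to `F (ν + 1)`; and each `δ` in `T` of
degree `- r ≤ 0` maps `F ν` to zero if `J < ν + r`. -/
structure IsWeak (A : AbelJacobi.{u, v, w, t} W) (Z : 𝒱.Obj) (J : ℕ) (T : Set (C.CH (Z.prod Z)))
    (F : ℕ → Sub C Z) : Prop where
  le : ∀ ν, F ν ≤ C.gr Z J
  two : ∀ x, A.IsKer Z J x → x ∈ F 2
  graded : ∀ ν, ∀ γ ∈ T, IsCorr C Z.dim γ → Kills W γ J ν → Maps C γ (F ν) (F (ν + 1))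
  last : ∀ ν c r, c + r = Z.dim → J < ν + r → ∀ δ ∈ T, IsCorr C c δ → Maps C δ (F ν) ⊥

/-- `y = γ_* x` for some `x` in `M` and some self-correspondence `γ` of degree zero of `Z` which acts
as zero on `H^(2 J - ν)(Z)`. -/
def IsProduct (W : WeilTheory.{u, v, w} C) (Z : 𝒱.Obj) (J ν : ℕ) (M : Sub C Z) (y : C.CH Z) :
    Prop :=
  ∃ γ : C.CH (Z.prod Z), IsCorr C Z.dim γ ∧ Kills W γ J ν ∧ ∃ x ∈ M, app C γ x = y

/-- `pow A Z J n` is the subspace `I_(2 J - n - 1) ⋯ I_(2 J - 3) I_(2 J - 2) ker(AJ)` of `CH^J(Z)`,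
with `n` factors, where `I_m` is the ideal of the self-correspondences of degree zero of `Z` which
act as zero on `H^m(Z)`, and `ker(AJ)` is the kernel of the Abel–Jacobi map on `CH^J(Z)_hom`. -/
noncomputable def pow (A : AbelJacobi.{u, v, w, t} W) (Z : 𝒱.Obj) (J : ℕ) : ℕ → Sub C Z
  | 0 => Submodule.span ℚ {x | A.IsKer Z J x}
  | n + 1 => Submodule.span ℚ {y | IsProduct W Z J (n + 2) (pow A Z J n) y}

/-- **The criterion** for `CH^J(Z)`: for all `n` and `r` with `J < n + 2 + r`, all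
self-correspondences of `Z` of degree `- r` act as zero on
`I_(2 J - n - 1) ⋯ I_(2 J - 2) ker(AJ) ⊆ CH^J(Z)`. (For `r = 0`: this subspace is `0` if
`n = J - 1`.) -/
def Criterion (A : AbelJacobi.{u, v, w, t} W) (Z : 𝒱.Obj) (J : ℕ) : Prop :=
  ∀ n r c, c + r = Z.dim → J < n + 2 + r → ∀ δ : C.CH (Z.prod Z), IsCorr C c δ →
    Maps C δ (pow A Z J n) ⊥

end Pool.Agent.T2h95.BB
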