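import Pool.Agent.T2h95.BB.Basic

/-!
# Bloch–Beilinson filtrations: the criterion with products of ideals
-/

open CategoryTheory CategoryTheory.Limits AlgebraicGeometry
open Pool.Agent.H914 Pool.Agent.H914.VarClass Pool.Agent.H914.VarClass.Obj
open Pool.Agent.R903

universe u v w t

namespace Pool.Agent.T2h95.BB

variable {k : Type u} [Field k] {𝒱 : VarClass k} {C : ChowTheory.{u, v} 𝒱}
variable {W : WeilTheory.{u, v, w} C} {X Y Z P : 𝒱.Obj}

/-! ### factors -/

lemma IsShift.trans {s : ℕ} (h : IsShift C 0 X P) (h' : IsShift C s P Z) : IsShift C s X Z := by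
  obtain ⟨c, i, q, hc, hi, hq, hiq⟩ := h
  obtain ⟨c', i', q', hc', hi', hq', hiq'⟩ := h'
  refine ⟨c', C.comp i i', C.comp q' q, hc', C.comp_mem hi hi' (by omega),
    C.comp_mem hq' hq (by omega), ?_⟩
  intro x
  change C.act _ (C.act _ x) = x
  have h1 : C.act q' (C.act i' (C.act i x)) = C.act i x := hiq' _
  have h2 : C.act q (C.act i x) = x := hiq x
  rw [C.act_comp, C.act_comp, h1, h2]

lemma push_fst_pull_snd (X Y : 𝒱.Obj) (y : C.CH Y) :
    C.push (fst X Y) (C.pull (snd X Y) y) = algebraMap ℚ (C.CH X) (C.deg Y y) := by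
  have e1 : fst X Y = lift (snd X Y) (fst X Y) ≫ snd Y X := by simp
  have e2 : snd X Y = lift (snd X Y) (fst X Y) ≫ fst Y X := by simp
  have := isIso_swap (X := X) (Y := Y)
  rw [e1, e2, C.push_comp, C.pull_comp]
  rw [← C.push_snd_pull_fst Y X y]
  congr 1
  have h3 := C.push_pull_iso (lift (snd X Y) (fst X Y)) (C.pull (fst Y X) y)
  simpa using h3

lemma pow_mem_gr {D : C.CH X} (hD : D ∈ C.gr X 1) (n : ℕ) : D ^ n ∈ C.gr X n := by
  induction n with
  | zero => simpa using C.one_mem X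
  | succ n ih => rw [pow_succ]; exact C.mul_mem ih hD

lemma isShift_fst (hP : C.Polarized) (X Y : 𝒱.Obj) {s : ℕ} (hs : s ≤ Y.dim) :
    IsShift C s X (X.prod Y) := by
  obtain ⟨D, hD, hd⟩ := hP Y
  obtain ⟨r, hr⟩ := Nat.exists_eq_add_of_le hs
  refine ⟨X.dim + r, C.span (fst X Y) (𝟙 (X.prod Y)) (C.pull (snd X Y) (D ^ s)),
    C.span (𝟙 (X.prod Y)) (fst X Y) (C.pull (snd X Y) ((C.deg Y (D ^ Y.dim))⁻¹ • D ^ r)),
    by simp only [dim_prod]; omega,
    C.span_mem _ _ (C.pull_mem _ (pow_mem_gr hD s)) (by omega),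
    C.span_mem _ _ (C.pull_mem _ (Submodule.smul_mem _ _ (pow_mem_gr hD r)))
      (by simp only [dim_prod]; omega), fun x => ?_⟩
  change C.act _ (C.act _ x) = x
  rw [C.act_span, C.act_span, C.pull_id, C.push_id, ← mul_assoc, ← C.pull_mul, C.push_mul,
    push_fst_pull_snd, smul_mul_assoc, ← pow_add, add_comm r s, ← hr, map_smul, smul_eq_mul,
    inv_mul_cancel₀ hd, map_one, one_mul]

lemma isShift_snd (hP : C.Polarized) (X Y : 𝒱.Obj) : IsShift C 0 Y (X.prod Y) := by
  obtain ⟨D, hD, hd⟩ := hP X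
  refine ⟨X.dim + Y.dim, C.cograph (snd X Y),
    C.span (𝟙 (X.prod Y)) (snd X Y) (C.pull (fst X Y) ((C.deg X (D ^ X.dim))⁻¹ • D ^ X.dim)),
    by simp only [dim_prod]; omega, C.cograph_mem _,
    C.span_mem _ _ (C.pull_mem _ (Submodule.smul_mem _ _ (pow_mem_gr hD _)))
      (by simp only [dim_prod]; omega), fun x => ?_⟩
  change C.act _ (C.act _ x) = x
  rw [C.act_cograph, C.act_span, C.pull_id, C.push_mul, C.push_snd_pull_fst, map_smul, smul_eq_mul,
    inv_mul_cancel₀ hd, map_one, one_mul]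

theorem isDominating_square (hP : C.Polarized) :
    IsDominating C (Set.range fun X : 𝒱.Obj => (X.prod X, X.dim)) := fun X =>
  ⟨_, ⟨X, rfl⟩, le_rfl, fun _ hs => isShift_fst hP X X hs⟩

/-! ### chains in all varieties -/

variable {A : AbelJacobi.{u, v, w, t} W}

/-- Chains passing through arbitrary varieties, with `n` steps. -/
inductive GChain (A : AbelJacobi.{u, v, w, t} W) : ∀ X : 𝒱.Obj, ℕ → ℕ → C.CH X → Prop
  | start {X : 𝒱.Obj} {j : ℕ} {x : C.CH X} (hx : x ∈ A.ker X j) : GChain A X j 0 x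
  | step {X Y : 𝒱.Obj} {c j j' n : ℕ} {x : C.CH X} {γ : C.CH (X.prod Y)} (hx : GChain A X j n x)
      (hγ : γ ∈ C.gr (X.prod Y) c) (h : j + c = j' + X.dim) (hk : Kills W γ j (n + 2)) :
      GChain A Y j' (n + 1) (C.act γ x)

lemma GChain.mem {j n : ℕ} {x : C.CH X} (h : GChain A X j n x) : x ∈ A.ker X j := by
  induction h with
  | start hx => exact hx
  | step _ hγ h _ ih => exact ker_stable h hγ ih

lemma GChain.mem_gr {j n : ℕ} {x : C.CH X} (h : GChain A X j n x) : x ∈ C.gr X j :=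
  homTriv_le W X j (ker_le A X j h.mem)

/-- A chain can be transported to the group `CH^J(Z)`. -/
lemma GChain.transport (hP : C.Polarized) {j n : ℕ} {x : C.CH X} (h : GChain A X j n x)
    (h0 : x ≠ 0) : ∃ P : 𝒱.Obj, ∀ (Z : 𝒱.Obj) (J : ℕ), P.dim ≤ J →
      (∀ s ≤ J, IsShift C s P Z) → IsShift C 0 X Z ∧ ∃ s, j + s = J ∧
        ∃ i ∈ C.gr (X.prod Z) (X.dim + s), ∃ c, c + s = Z.dim ∧ ∃ q ∈ C.gr (Z.prod X) c,
          (∀ x', C.act q (C.act i x') = x') ∧ C.act i x ∈ pow A Z J n := by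
  induction h with
  | @start X j x hx =>
    refine ⟨X, fun Z J hJ hZ => ⟨hZ 0 (Nat.zero_le _), ?_⟩⟩
    have hj : j ≤ X.dim := by
      by_contra hj
      have h1 := homTriv_le W X j (ker_le A X j hx)
      rw [C.gr_eq_bot X j (by omega), Submodule.mem_bot] at h1
      exact h0 h1
    obtain ⟨s, hs⟩ := Nat.exists_eq_add_of_le (hj.trans hJ)
    obtain ⟨c, i, q, hc, hi, hq, hiq⟩ := hZ s (by omega)
    exact ⟨s, hs.symm, i, hi, c, hc, q, hq, hiq,
      Submodule.subset_span (ker_stable (by omega) hi hx)⟩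
  | @step X X' c j j' n x γ hx hγ h hk ih =>
    have hx0 : x ≠ 0 := by
      rintro rfl
      exact h0 (map_zero _)
    obtain ⟨P, hP'⟩ := ih hx0
    refine ⟨P.prod X', fun Z J hJ hZ => ?_⟩
    rw [dim_prod] at hJ
    obtain ⟨-, s, hs, i, hi, cq, hcq, q, hq, hiq, hpow⟩ := hP' Z J (by omega)
      (fun s hs => (isShift_fst hP P X' (Nat.zero_le _)).trans (hZ s hs))
    have hX' : ∀ s ≤ J, IsShift C s X' Z := fun s hs => (isShift_snd hP P X').trans (hZ s hs)
    have hj' : j' ≤ X'.dim := by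
      by_contra hj'
      have h1 := C.act_mem hγ hx.mem_gr h
      rw [C.gr_eq_bot X' j' (by omega), Submodule.mem_bot] at h1
      exact h0 h1
    obtain ⟨s', hs'⟩ := Nat.exists_eq_add_of_le (show j' ≤ J by omega)
    obtain ⟨cq', i', q', hcq', hi', hq', hiq'⟩ := hX' s' (by omega)
    refine ⟨hX' 0 (Nat.zero_le _), s', hs'.symm, i', hi', cq', hcq', q', hq', hiq', ?_⟩
    have h1 : C.comp γ i' ∈ C.gr (X.prod Z) (c + s') := C.comp_mem hγ hi' (by omega)
    have h2 : C.comp q (C.comp γ i') ∈ C.gr (Z.prod Z) Z.dim := C.comp_mem hq h1 (by omega)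
    have h3 : Kills W (C.comp q (C.comp γ i')) J (n + 2) := by
      intro l hl a ha
      rw [W.act_comp _ h1, W.act_comp _ hi']
      by_cases hls : 2 * s ≤ l
      · obtain ⟨m, rfl⟩ := Nat.exists_eq_add_of_le hls
        rw [hk m (by omega) _ (act_memH W hq ha (by omega)), map_zero]
      · rw [act_eq_zeroH W hq ha (by omega), map_zero, map_zero]
    refine Submodule.subset_span ⟨_, h2, h3, _, hpow, ?_⟩
    change C.act _ (C.act i x) = _
    rw [C.act_comp, C.act_comp, hiq]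

/-- The criterion for a dominating family implies the vanishing of all chains with more steps than
expected. -/
lemma GChain.eq_zero (hP : C.Polarized) {𝒟 : Set (𝒱.Obj × ℕ)} (hD : IsDominating C 𝒟)
    (hc : ∀ p ∈ 𝒟, Criterion A p.1 p.2) {j n : ℕ} {x : C.CH X}
    (h : GChain A X j n x) (hj : j < n + 2) : x = 0 := by
  by_contra h0
  obtain ⟨P, hP'⟩ := h.transport hP h0
  obtain ⟨⟨Z, J⟩, hZ, hJ, hs⟩ := hD P
  obtain ⟨⟨c₀, i₀, q₀, hc₀, hi₀, hq₀, hiq₀⟩, s, hs', i, hi, c, hc', q, hq, hiq, hpow⟩ :=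
    hP' Z J hJ hs
  have h1 : C.comp q i₀ ∈ C.gr (Z.prod Z) c := C.comp_mem hq hi₀ rfl
  have h2 : C.act (C.comp q i₀) (C.act i x) = 0 :=
    hc ⟨Z, J⟩ hZ n s c hc' (by simp only; omega) _ h1 _ hpow
  rw [C.act_comp, hiq] at h2
  apply h0
  have h3 : C.act q₀ (C.act i₀ x) = x := hiq₀ x
  rw [← h3, h2, map_zero]

/-! ### stability of chains -/

lemma GChain.zero (A : AbelJacobi.{u, v, w, t} W) (X : 𝒱.Obj) (j n : ℕ) : GChain A X j n 0 := by
  induction n with
  | zero => exact GChain.start (Submodule.zero_mem _)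
  | succ n ih =>
    have := GChain.step (Y := X) ih (γ := 0) (c := X.dim) (j' := j) (Submodule.zero_mem _) rfl
      (kills_zero _ _)
    rwa [map_zero] at this

lemma GChain.stable {j n : ℕ} {x : C.CH X} (h : GChain A X j n x) {c j' : ℕ}
    (hj : j + c = j' + X.dim) {γ : C.CH (X.prod Y)} (hγ : γ ∈ C.gr (X.prod Y) c) :
    GChain A Y j' n (C.act γ x) := by
  cases h with
  | start hx => exact GChain.start (ker_stable hj hγ hx)
  | @step X₀ _ c₀ i _ μ x₀ δ hx hδ h0 hk =>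
    rw [← C.act_comp]
    by_cases hc : X.dim ≤ c₀ + c
    · obtain ⟨r, hr⟩ : ∃ r, c₀ + c = r + X.dim := ⟨c₀ + c - X.dim, by omega⟩
      exact GChain.step hx (C.comp_mem hδ hγ hr) (by omega) (kills_comp hγ hk)
    · have h1 : x₀ = 0 := by
        have h2 := hx.mem_gr
        rw [C.gr_eq_bot X₀ i (by omega), Submodule.mem_bot] at h2
        exact h2
      rw [h1, map_zero]
      exact GChain.zero A Y j' _

/-! ### the smallest filtration -/

/-- The smallest filtration. -/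
noncomputable def minF (A : AbelJacobi.{u, v, w, t} W) : Fil C
  | X, j, 0 => C.gr X j
  | X, j, 1 => homTriv W X j
  | X, j, n + 2 => Submodule.span ℚ {x | GChain A X j n x}

lemma minF_two (A : AbelJacobi.{u, v, w, t} W) (X : 𝒱.Obj) (j : ℕ) : minF A X j 2 = A.ker X j := by
  apply le_antisymm
  · exact Submodule.span_le.2 fun x hx => hx.mem
  · exact fun x hx => Submodule.subset_span (GChain.start hx)

lemma minF_add_two (A : AbelJacobi.{u, v, w, t} W) (X : 𝒱.Obj) (j n : ℕ) :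
    minF A X j (n + 2) = Submodule.span ℚ {x | GChain A X j n x} := rfl

lemma minF_stable {c j j' ν : ℕ} (h : j + c = j' + X.dim) {γ : C.CH (X.prod Y)}
    (hγ : γ ∈ C.gr (X.prod Y) c) {x : C.CH X} (hx : x ∈ minF A X j ν) :
    C.act γ x ∈ minF A Y j' ν := by
  match ν, hx with
  | 0, hx => exact C.act_mem hγ hx h
  | 1, hx => exact hom_stable h hγ hx
  | n + 2, hx =>
    have h1 : (minF A X j (n + 2)).map (C.act γ) ≤ minF A Y j' (n + 2) := by
      rw [minF_add_two, Submodule.map_span_le]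
      intro x hx
      exact Submodule.subset_span (GChain.stable hx h hγ)
    exact h1 ⟨x, hx, rfl⟩

lemma minF_graded {c j j' ν : ℕ} (h : j + c = j' + X.dim) {γ : C.CH (X.prod Y)}
    (hγ : γ ∈ C.gr (X.prod Y) c) (hk : Kills W γ j ν) {x : C.CH X} (hx : x ∈ minF A X j ν) :
    C.act γ x ∈ minF A Y j' (ν + 1) := by
  match ν, hx, hk with
  | 0, hx, hk => exact gr_graded h hγ hk hx
  | 1, hx, hk => rw [minF_two]; exact hom_graded h hγ hk hx
  | n + 2, hx, hk =>
    have h1 : (minF A X j (n + 2)).map (C.act γ) ≤ minF A Y j' (n + 1 + 2) := by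
      rw [minF_add_two, Submodule.map_span_le]
      intro x hx
      exact Submodule.subset_span (GChain.step hx hγ h hk)
    exact h1 ⟨x, hx, rfl⟩

lemma minF_anti (A : AbelJacobi.{u, v, w, t} W) (X : 𝒱.Obj) (j ν : ℕ) :
    minF A X j (ν + 1) ≤ minF A X j ν := by
  match ν with
  | 0 => exact homTriv_le W X j
  | 1 => rw [minF_two]; exact ker_le A X j
  | n + 2 =>
    refine Submodule.span_le.2 ?_
    intro x hx
    have hx' : GChain A X j (n + 1) x := hx
    clear hx
    cases hx' with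
    | step hy hγ h hk => exact Submodule.subset_span (hy.stable h hγ)

theorem isBB_minF (hP : C.Polarized)
    (hc : ∀ (X : 𝒱.Obj) (j n : ℕ) (x : C.CH X), GChain A X j n x → j < n + 2 → x = 0) :
    IsBB A Set.univ (minF A) where
  isFil X _ :=
    { anti := fun j ν => minF_anti A X j ν
      zero := fun _ => rfl
      one := fun _ _ => Iff.rfl
      two := fun j x => by rw [minF_two]; exact Iff.rfl
      last := by
        intro j
        match j with
        | 0 => exact homTriv_zero hP X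
        | j + 1 =>
          rw [eq_bot_iff]
          refine Submodule.span_le.2 ?_
          intro x hx
          exact hc X (j + 1) j x hx (by omega) }
  stable X _ Y _ c j j' ν h γ hγ x hx := minF_stable h hγ hx
  graded X _ Y _ c j j' ν h γ hγ hk x hx := minF_graded h hγ hk hx

/-! ### filtrations contain chains -/

lemma IsBB.bot {S : Set 𝒱.Obj} {F : Fil C} (h : IsBB A S F) (hX : X ∈ S) {j ν : ℕ} (hj : j < ν) :
    F X j ν = ⊥ := by
  rw [eq_bot_iff, ← (h.isFil X hX).last j]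
  exact antitone_nat_of_succ_le (f := F X j) ((h.isFil X hX).anti j) hj

lemma IsBB.gchain_mem {F : Fil C} (h : IsBB A Set.univ F) {j n : ℕ} {x : C.CH X}
    (hx : GChain A X j n x) : x ∈ F X j (n + 2) := by
  induction hx with
  | start hx => exact ((h.isFil _ trivial).two _ _).2 hx
  | step _ hγ hj hk ih => exact h.graded _ trivial _ trivial _ _ _ _ hj _ hγ hk _ ih

lemma IsBB.minF_le {F : Fil C} (h : IsBB A Set.univ F) (X : 𝒱.Obj) (j ν : ℕ) :
    minF A X j ν ≤ F X j ν := by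
  match ν with
  | 0 => rw [(h.isFil _ trivial).zero]; exact le_rfl
  | 1 => exact fun x hx => ((h.isFil _ trivial).one _ _).2 hx
  | ν + 2 => exact Submodule.span_le.2 fun x hx => h.gchain_mem hx

lemma IsBB.mono {S T : Set 𝒱.Obj} {F : Fil C} (h : IsBB A S F) (hTS : T ⊆ S) : IsBB A T F where
  isFil X hX := h.isFil X (hTS hX)
  stable X hX Y hY := h.stable X (hTS hX) Y (hTS hY)
  graded X hX Y hY := h.graded X (hTS hX) Y (hTS hY)

lemma IsBB.isWeak {F : Fil C} (h : IsBB A {Z} F) (J : ℕ) (T : Set (C.CH (Z.prod Z))) :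
    IsWeak A Z J T (F Z J) where
  le ν := by
    rw [← (h.isFil Z rfl).zero J]
    exact antitone_nat_of_succ_le (f := F Z J) ((h.isFil Z rfl).anti J) (Nat.zero_le ν)
  two := fun x hx => ((h.isFil Z rfl).two J x).2 hx
  graded ν γ _ hγ hk x hx := h.graded Z rfl Z rfl Z.dim J J ν rfl γ hγ hk x hx
  last ν c r hc hJ δ _ hδ x hx := by
    by_cases hr : r ≤ J
    · obtain ⟨m, rfl⟩ := Nat.exists_eq_add_of_le hr
      have h1 := h.stable Z rfl Z rfl c (r + m) m ν (by omega) δ hδ x hx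
      rwa [h.bot rfl (by omega), Submodule.mem_bot] at h1
    · have h1 : x ∈ C.gr Z J := by
        rw [← (h.isFil Z rfl).zero J]
        exact antitone_nat_of_succ_le (f := F Z J) ((h.isFil Z rfl).anti J) (Nat.zero_le ν) hx
      exact C.act_eq_zero hδ h1 (by omega)

lemma IsWeak.mono {J : ℕ} {S T : Set (C.CH (Z.prod Z))} {F : ℕ → Submodule ℚ (C.CH Z)}
    (h : IsWeak A Z J T F) (hST : S ⊆ T) : IsWeak A Z J S F where
  le := h.le
  two := h.two
  graded ν γ hγ := h.graded ν γ (hST hγ)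
  last ν c r hc hJ δ hδ := h.last ν c r hc hJ δ (hST hδ)

lemma pow_exists_finite {J n : ℕ} {x : C.CH Z} (h : x ∈ pow A Z J n) :
    ∃ T : Set (C.CH (Z.prod Z)), T.Finite ∧ ∀ F, IsWeak A Z J T F → x ∈ F (n + 2) := by
  induction n generalizing x with
  | zero => exact ⟨∅, Set.finite_empty, fun F hF => Submodule.span_le.2 hF.two h⟩
  | succ n ih =>
    have h' : x ∈ Submodule.span ℚ {y | IsProduct W Z J (n + 2) (pow A Z J n) y} := h
    induction h' using Submodule.span_induction with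
    | mem y hy =>
      obtain ⟨γ, hγ, hk, x, hx, rfl⟩ := hy
      obtain ⟨T, hT, hF⟩ := ih hx
      refine ⟨insert γ T, hT.insert γ, fun F hF' => ?_⟩
      exact hF'.graded (n + 2) γ (Set.mem_insert _ _) hγ hk x
        (hF F (hF'.mono (Set.subset_insert _ _)))
    | zero => exact ⟨∅, Set.finite_empty, fun F _ => Submodule.zero_mem _⟩
    | add y z hy hz ihy ihz =>
      obtain ⟨T, hT, hF⟩ := ihy hy
      obtain ⟨T', hT', hF'⟩ := ihz hz
      exact ⟨T ∪ T', hT.union hT', fun F h => Submodule.add_mem _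
        (hF F (h.mono Set.subset_union_left)) (hF' F (h.mono Set.subset_union_right))⟩
    | smul a y hy ihy =>
      obtain ⟨T, hT, hF⟩ := ihy hy
      exact ⟨T, hT, fun F h => Submodule.smul_mem _ _ (hF F h)⟩

/-! ### suprema -/

/-- The largest filtration. -/
noncomputable def maxF (A : AbelJacobi.{u, v, w, t} W) : Fil C := fun X j ν =>
  ⨆ F : {F : Fil C // IsBB A Set.univ F}, F.1 X j ν

theorem isBB_maxF (h : ∃ F, IsBB A Set.univ F) : IsBB A Set.univ (maxF A) := by
  obtain ⟨F₀, hF₀⟩ := h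
  have : Nonempty {F : Fil C // IsBB A Set.univ F} := ⟨⟨F₀, hF₀⟩⟩
  have hmap : ∀ {X Y : 𝒱.Obj} {j j' ν ν' : ℕ} (γ : C.CH (X.prod Y)),
      (∀ F, IsBB A Set.univ F → ∀ x ∈ F X j ν, C.act γ x ∈ F Y j' ν') →
        ∀ x ∈ maxF A X j ν, C.act γ x ∈ maxF A Y j' ν' := by
    intro X Y j j' ν ν' γ hF x hx
    have h1 : (maxF A X j ν).map (C.act γ) ≤ maxF A Y j' ν' := by
      rw [maxF, Submodule.map_iSup]
      refine iSup_le fun F => ?_
      refine le_trans ?_ (le_iSup (fun F : {F : Fil C // IsBB A Set.univ F} => F.1 Y j' ν') F)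
      rintro _ ⟨y, hy, rfl⟩
      exact hF F.1 F.2 y hy
    exact h1 ⟨x, hx, rfl⟩
  have heq : ∀ (X : 𝒱.Obj) (j ν : ℕ) (M : Submodule ℚ (C.CH X)),
      (∀ F, IsBB A Set.univ F → F X j ν = M) → maxF A X j ν = M := by
    intro X j ν M hM
    rw [maxF]
    refine le_antisymm (iSup_le fun F => (hM F.1 F.2).le) ?_
    exact le_trans (hM F₀ hF₀).ge
      (le_iSup (fun F : {F : Fil C // IsBB A Set.univ F} => F.1 X j ν) ⟨F₀, hF₀⟩)
  exact {
    isFil := fun X hX => {
      anti := fun j ν => iSup_mono fun F => (F.2.isFil X hX).anti j ν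
      zero := fun j => heq X j 0 _ fun F hF => (hF.isFil X hX).zero j
      one := fun j x => by
        rw [heq X j 1 (homTriv W X j) fun F hF => Submodule.ext ((hF.isFil X hX).one j)]
        exact Iff.rfl
      two := fun j x => by
        rw [heq X j 2 (A.ker X j) fun F hF => Submodule.ext ((hF.isFil X hX).two j)]
        exact Iff.rfl
      last := fun j => heq X j (j + 1) _ fun F hF => (hF.isFil X hX).last j }
    stable := fun X hX Y hY c j j' ν h γ hγ => hmap γ fun F hF =>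
      hF.stable X hX Y hY c j j' ν h γ hγ
    graded := fun X hX Y hY c j j' ν h γ hγ hk => hmap γ fun F hF =>
      hF.graded X hX Y hY c j j' ν h γ hγ hk }

/-! ### the main theorem -/

theorem criterion_of_weak {J : ℕ}
    (h : ∀ T : Set (C.CH (Z.prod Z)), T.Finite → ∃ F, IsWeak A Z J T F) : Criterion A Z J := by
  intro n r c hc hJ δ hδ x hx
  obtain ⟨T, hT, hF⟩ := pow_exists_finite hx
  obtain ⟨F, hF'⟩ := h (insert δ T) (hT.insert δ)
  exact hF'.last (n + 2) c r hc hJ δ (Set.mem_insert _ _) hδ x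
    (hF F (hF'.mono (Set.subset_insert _ _)))

theorem tfae (A : AbelJacobi.{u, v, w, t} W) (hP : C.Polarized)
    {𝒟 : Set (𝒱.Obj × ℕ)} (hD : IsDominating C 𝒟) :
    List.TFAE [
      ∃ F, IsBB A Set.univ F,
      ∀ p ∈ 𝒟, ∃ F, IsBB A {p.1} F,
      ∀ p ∈ 𝒟, ∀ T : Set (C.CH (p.1.prod p.1)), T.Finite → ∃ F, IsWeak A p.1 p.2 T F,
      ∀ p ∈ 𝒟, Criterion A p.1 p.2] := by
  tfae_have 1 → 2 := by
    rintro ⟨F, hF⟩ p -
    exact ⟨F, hF.mono (Set.subset_univ _)⟩
  tfae_have 2 → 3 := by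
    intro h p hp T _
    obtain ⟨F, hF⟩ := h p hp
    exact ⟨_, hF.isWeak p.2 T⟩
  tfae_have 3 → 4 := fun h p hp => criterion_of_weak (h p hp)
  tfae_have 4 → 1 := fun h => ⟨_, isBB_minF hP fun X j n x hx hj => hx.eq_zero hP hD h hj⟩
  tfae_finish

theorem min_max (A : AbelJacobi.{u, v, w, t} W) (hP : C.Polarized)
    (h : ∃ F, IsBB A Set.univ F) :
    ∃ F₀ F₁, IsBB A Set.univ F₀ ∧ IsBB A Set.univ F₁ ∧ ∀ F, IsBB A Set.univ F →
      ∀ X j ν, F₀ X j ν ≤ F X j ν ∧ F X j ν ≤ F₁ X j ν := by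
  obtain ⟨F₂, hF₂⟩ := h
  refine ⟨minF A, maxF A, isBB_minF hP fun X j n x hx hj => ?_, isBB_maxF ⟨F₂, hF₂⟩,
    fun F hF X j ν => ⟨hF.minF_le X j ν,
      le_iSup (fun F : {F : Fil C // IsBB A Set.univ F} => F.1 X j ν) ⟨F, hF⟩⟩⟩
  have h1 := hF₂.gchain_mem hx
  rwa [hF₂.bot trivial hj, Submodule.mem_bot] at h1

end Pool.Agent.T2h95.BB
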